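import Mathlib

/-!
# The free topological linear space over the discrete reals on a metrizable space is paracompact
-/

open Set Topology
open scoped ENNReal

namespace Pool.Agent.Results.MP_f94ac9_gt.Paracompact

universe u v

/-! ### Definitions -/

/-- `E` is a topological linear space over `ℝ_d` (the reals with the discrete topology): a real vector
space with a Hausdorff topology such that the addition `E × E → E` is continuous and for each fixed
real `r` the map `v ↦ r • v` is continuous. -/
structure IsTopLinear (E : Type u) [AddCommGroup E] [Module ℝ E] [TopologicalSpace E] : Prop where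
  t2 : T2Space E
  add : Continuous fun p : E × E => p.1 + p.2
  smul : ∀ r : ℝ, Continuous fun v : E => r • v

/-- `L` together with `i : X → L` is the free topological linear space over `ℝ_d` on the space `X`:
`L` is a topological linear space over `ℝ_d`, `i` is a topological embedding whose image is a Hamel
basis of `L`, and every continuous map `f` from `X` to a topological linear space `E` over `ℝ_d`
extends uniquely to a continuous linear map `L → E`. -/
structure IsFreeTopLinear (X : Type u) [TopologicalSpace X] (L : Type u) [AddCommGroup L]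
    [Module ℝ L] [TopologicalSpace L] (i : X → L) : Prop where
  topLinear : IsTopLinear L
  embedding : IsEmbedding i
  linearIndependent : LinearIndependent ℝ i
  span : ⊤ ≤ Submodule.span ℝ (Set.range i)
  lift : ∀ (E : Type u) [AddCommGroup E] [Module ℝ E] [TopologicalSpace E], IsTopLinear E →
    ∀ f : X → E, Continuous f → ∃! g : L →ₗ[ℝ] E, Continuous g ∧ ∀ x, g (i x) = f x

/-! ### Michael's theorem -/

section Michael

variable {Z : Type u} [TopologicalSpace Z]

/-- every open cover has a σ-locally finite open refinement -/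
def SigmaLF (Z : Type u) [TopologicalSpace Z] : Prop :=
  ∀ (ι : Type u) (U : ι → Set Z), (∀ i, IsOpen (U i)) → (⋃ i, U i = univ) →
    ∃ (κ : ℕ → Type u) (V : ∀ n, κ n → Set Z), (∀ n k, IsOpen (V n k)) ∧
      (∀ n, LocallyFinite (V n)) ∧ (∀ n k, ∃ i, V n k ⊆ U i) ∧ ∀ z, ∃ n k, z ∈ V n k

lemma step1 (h : SigmaLF Z) (ι : Type u) (U : ι → Set Z) (hU : ∀ i, IsOpen (U i))
    (hc : ⋃ i, U i = univ) :
    ∃ (κ : Type u) (A : κ → Set Z), LocallyFinite A ∧ (∀ k, ∃ i, A k ⊆ U i) ∧
      ∀ z, ∃ k, z ∈ A k := by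
  classical
  obtain ⟨κ, V, hVo, hVl, hVr, hVc⟩ := h ι U hU hc
  refine ⟨Σ n, κ n, fun p => V p.1 p.2 \ ⋃ m < p.1, ⋃ k, V m k, ?_, ?_, ?_⟩
  · intro z
    -- the least `n` with `z ∈ V n k`
    have hex : ∃ n, ∃ k, z ∈ V n k := hVc z
    obtain ⟨n0, ⟨k0, hk0⟩, hmin⟩ : ∃ n0, (∃ k, z ∈ V n0 k) ∧ ∀ m < n0, ¬ ∃ k, z ∈ V m k :=
      ⟨Nat.find hex, Nat.find_spec hex, fun m hm => Nat.find_min hex hm⟩
    choose O hO hOf using fun n => hVl n z
    refine ⟨V n0 k0 ∩ ⋂ m ∈ Finset.range (n0 + 1), O m, ?_, ?_⟩
    · refine Filter.inter_mem ((hVo _ _).mem_nhds hk0) ?_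
      exact (Filter.biInter_finset_mem _).2 fun m _ => hO m
    · have hfin : (⋃ m ∈ Finset.range (n0 + 1),
          (Sigma.mk m) '' {k | (V m k ∩ O m).Nonempty}).Finite :=
        Set.Finite.biUnion (Finset.finite_toSet _) fun m _ => (hOf m).image _
      refine hfin.subset ?_
      rintro ⟨m, k⟩ ⟨y, ⟨hy1, hy2⟩, hy3, hy4⟩
      have hm : m ≤ n0 := by
        by_contra hcon
        push Not at hcon
        exact hy2 (mem_iUnion₂.2 ⟨n0, hcon, mem_iUnion.2 ⟨k0, hy3⟩⟩)
      simp only [mem_iInter] at hy4
      refine mem_iUnion₂.2 ⟨m, Finset.mem_range.2 (by omega), ⟨k, ⟨y, hy1, ?_⟩, rfl⟩⟩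
      exact hy4 m (Finset.mem_range.2 (by omega))
  · rintro ⟨n, k⟩
    obtain ⟨i, hi⟩ := hVr n k
    exact ⟨i, sdiff_subset.trans hi⟩
  · intro z
    have hex : ∃ n, ∃ k, z ∈ V n k := hVc z
    obtain ⟨k0, hk0⟩ := Nat.find_spec hex
    refine ⟨⟨Nat.find hex, k0⟩, hk0, ?_⟩
    intro hcon
    obtain ⟨m, hm, hk⟩ := mem_iUnion₂.1 hcon
    exact Nat.find_min hex hm (mem_iUnion.1 hk)

lemma step2 [RegularSpace Z] (h : SigmaLF Z) (ι : Type u) (U : ι → Set Z)
    (hU : ∀ i, IsOpen (U i)) (hc : ⋃ i, U i = univ) :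
    ∃ (κ : Type u) (A : κ → Set Z), LocallyFinite A ∧ (∀ k, IsClosed (A k)) ∧
      (∀ k, ∃ i, A k ⊆ U i) ∧ ∀ z, ∃ k, z ∈ A k := by
  have h1 : ∀ z : Z, ∃ i, ∃ t ∈ 𝓝 z, IsClosed t ∧ t ⊆ U i := by
    intro z
    obtain ⟨i, hi⟩ := mem_iUnion.1 (hc ▸ mem_univ z)
    obtain ⟨t, ht, htc, hts⟩ := exists_mem_nhds_isClosed_subset ((hU i).mem_nhds hi)
    exact ⟨i, t, ht, htc, hts⟩
  choose i t ht htc hts using h1
  obtain ⟨κ, A, hA, hAr, hAc⟩ := step1 h Z (fun z => interior (t z)) (fun z => isOpen_interior)
    (eq_univ_of_forall fun z => mem_iUnion.2 ⟨z, mem_interior_iff_mem_nhds.2 (ht z)⟩)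
  refine ⟨κ, fun k => closure (A k), hA.closure, fun k => isClosed_closure, fun k => ?_,
    fun z => ?_⟩
  · obtain ⟨z, hz⟩ := hAr k
    exact ⟨i z, (closure_minimal (hz.trans interior_subset) (htc z)).trans (hts z)⟩
  · obtain ⟨k, hk⟩ := hAc z
    exact ⟨k, subset_closure hk⟩

/-- **Michael's theorem.** A regular space in which every open cover has a σ-locally finite open
refinement is paracompact. -/
theorem paracompact_of_sigmaLF [RegularSpace Z] (h : SigmaLF Z) : ParacompactSpace Z := by
  refine ⟨fun ι U hU hc => ?_⟩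
  obtain ⟨κ, A, hA, hAcl, hAr, hAc⟩ := step2 h ι U hU hc
  choose N hN hNf using hA
  obtain ⟨lam, F, hF, hFcl, hFr, hFc⟩ := step2 h Z (fun z => interior (N z))
    (fun z => isOpen_interior)
    (eq_univ_of_forall fun z => mem_iUnion.2 ⟨z, mem_interior_iff_mem_nhds.2 (hN z)⟩)
  choose i hi using hAr
  choose w hw using hFr
  let B : κ → Set Z := fun k => (⋃ l : {l // F l ∩ A k = ∅}, F l.1)ᶜ
  have hBo : ∀ k, IsOpen (B k) := fun k =>
    ((hF.comp_injective Subtype.val_injective).isClosed_iUnion fun l => hFcl l.1).isOpen_compl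
  have hAB : ∀ k, A k ⊆ B k := by
    intro k z hz hcon
    obtain ⟨⟨l, hl⟩, hzl⟩ := mem_iUnion.1 hcon
    exact (hl ▸ (⟨hzl, hz⟩ : z ∈ F l ∩ A k) : z ∈ (∅ : Set Z))
  have hBl : LocallyFinite B := by
    intro z
    obtain ⟨W, hW, hWf⟩ := hF z
    refine ⟨W, hW, ?_⟩
    have hfin : (⋃ l ∈ {l | (F l ∩ W).Nonempty}, {k | (A k ∩ N (w l)).Nonempty}).Finite :=
      Set.Finite.biUnion hWf fun l _ => hNf (w l)
    refine hfin.subset ?_
    rintro k ⟨y, hy1, hy2⟩
    obtain ⟨l, hl⟩ := hFc y
    refine mem_iUnion₂.2 ⟨l, ⟨y, hl, hy2⟩, ?_⟩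
    have hne : (F l ∩ A k).Nonempty := by
      by_contra hcon
      rw [not_nonempty_iff_eq_empty] at hcon
      exact hy1 (mem_iUnion.2 ⟨⟨l, hcon⟩, hl⟩)
    obtain ⟨x, hx1, hx2⟩ := hne
    exact ⟨x, hx2, interior_subset (hw l hx1)⟩
  refine ⟨κ, fun k => B k ∩ U (i k), fun k => (hBo k).inter (hU _), ?_, ?_, fun k => ⟨i k,
    inter_subset_right⟩⟩
  · refine eq_univ_of_forall fun z => ?_
    obtain ⟨k, hk⟩ := hAc z
    exact mem_iUnion.2 ⟨k, hAB k hk, hi k hk⟩
  · exact hBl.subset fun k => inter_subset_left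

/-- A regular space with a continuous bijection `φ` to a paracompact space `Y` is paracompact if there are
countably many closed sets `C n` in `Y` whose preimages cover the space and such that on the
preimage of each `C n` the topology is the one induced by `φ`. -/
theorem paracompact_of_map [RegularSpace Z] {Y : Type v} [TopologicalSpace Y]
    [ParacompactSpace Y] (φ : Z → Y) (hφ : Continuous φ) (hs : Function.Surjective φ)
    (C : ℕ → Set Y)
    (hC : ∀ n, IsClosed (C n)) (hcov : ∀ z, ∃ n, φ z ∈ C n)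
    (hloc : ∀ n z, φ z ∈ C n → ∀ O ∈ 𝓝 z, ∃ W ∈ 𝓝 (φ z), φ ⁻¹' (W ∩ C n) ⊆ O) :
    ParacompactSpace Z := by
  refine paracompact_of_sigmaLF fun ι U hU hc => ?_
  have hi : ∀ z, ∃ i, z ∈ U i := fun z => mem_iUnion.1 (hc ▸ mem_univ z)
  choose i hi using hi
  have hW : ∀ n, ∀ z : {z // φ z ∈ C n}, ∃ W : Set Y, IsOpen W ∧ φ z.1 ∈ W ∧
      φ ⁻¹' (W ∩ C n) ⊆ U (i z.1) := by
    rintro n ⟨z, hz⟩
    obtain ⟨W, hW, hWs⟩ := hloc n z hz (U (i z)) ((hU _).mem_nhds (hi z))
    obtain ⟨W', hW's, hW'o, hzW'⟩ := mem_nhds_iff.1 hW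
    exact ⟨W', hW'o, hzW', fun y hy => hWs ⟨hW's hy.1, hy.2⟩⟩
  choose W hWo hWm hWs using hW
  have hV : ∀ n, ∃ V : Option {z // φ z ∈ C n} → Set Y, (∀ a, IsOpen (V a)) ∧
      ⋃ a, V a = univ ∧ LocallyFinite V ∧ ∀ a, V a ⊆ Option.elim a (C n)ᶜ (W n) := by
    intro n
    refine precise_refinement (fun a : Option {z // φ z ∈ C n} => Option.elim a (C n)ᶜ (W n))
      ?_ ?_
    · rintro (_ | z)
      · exact (hC n).isOpen_compl
      · exact hWo n z
    · refine eq_univ_of_forall fun y => ?_
      by_cases hy : y ∈ C n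
      · obtain ⟨z, rfl⟩ := hs y
        exact mem_iUnion.2 ⟨some ⟨z, hy⟩, hWm n ⟨z, hy⟩⟩
      · exact mem_iUnion.2 ⟨none, hy⟩
  choose V hVo hVc hVl hVs using hV
  refine ⟨fun n => {z // φ z ∈ C n}, fun n z => φ ⁻¹' (V n (some z)) ∩ U (i z.1), ?_, ?_, ?_, ?_⟩
  · exact fun n z => ((hVo n _).preimage hφ).inter (hU _)
  · intro n
    refine (((hVl n).preimage_continuous hφ).comp_injective
      (Option.some_injective _)).subset fun z => inter_subset_left
  · exact fun n z => ⟨i z.1, inter_subset_right⟩
  · intro z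
    obtain ⟨n, hn⟩ := hcov z
    obtain ⟨a, ha⟩ := mem_iUnion.1 ((hVc n) ▸ mem_univ (φ z) : φ z ∈ ⋃ a, V n a)
    cases a with
    | none => exact absurd hn (hVs n none ha)
    | some y => exact ⟨n, y, ha, hWs n y ⟨hVs n (some y) ha, hn⟩⟩

end Michael

/-! ### The Graev-type metric -/

section Graev

variable (X : Type u) [MetricSpace X]

/-- the real vector space with basis `X` (it will carry the Graev-type extended metric) -/
abbrev GSpace : Type u := X →₀ ℝ

variable {X}

/-- the basis vector of `x` -/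
noncomputable def pt (x : X) : GSpace X := Finsupp.single x (1 : ℝ)

/-- the vector `∑ r_j (a_j - b_j)` represented by a list of triples `(r_j, a_j, b_j)` -/
noncomputable def value (l : List (ℝ × X × X)) : GSpace X :=
  (l.map fun t => t.1 • (pt t.2.1 - pt t.2.2)).sum

/-- the cost `∑ d(a_j, b_j)` -/
noncomputable def cost (l : List (ℝ × X × X)) : ℝ≥0∞ :=
  (l.map fun t => edist t.2.1 t.2.2).sum

/-- the norm: least cost of a representation (`∞` if there is none) -/
noncomputable def gnorm (v : GSpace X) : ℝ≥0∞ := ⨅ (l : List (ℝ × X × X)) (_ : value l = v), cost l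

lemma gnorm_le {v : GSpace X} (l : List (ℝ × X × X)) (h : value l = v) : gnorm v ≤ cost l :=
  iInf₂_le l h

lemma gnorm_lt_iff {v : GSpace X} {e : ℝ≥0∞} :
    gnorm v < e ↔ ∃ l : List (ℝ × X × X), value l = v ∧ cost l < e := by
  unfold gnorm
  simp only [iInf_lt_iff, exists_prop]

lemma gnorm_zero : gnorm (0 : GSpace X) = 0 := by
  refine le_antisymm ((gnorm_le [] ?_).trans ?_) (zero_le)
  · simp [value]
  · simp [cost]

omit [MetricSpace X] in
lemma value_append (l l' : List (ℝ × X × X)) : value (l ++ l') = value l + value l' := by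
  simp [value]

lemma cost_append (l l' : List (ℝ × X × X)) : cost (l ++ l') = cost l + cost l' := by
  simp [cost]

lemma gnorm_add (v w : GSpace X) : gnorm (v + w) ≤ gnorm v + gnorm w := by
  refine ENNReal.le_of_forall_pos_le_add fun ε hε _ => ?_
  by_cases hv : gnorm v = ∞
  · simp [hv]
  by_cases hw : gnorm w = ∞
  · simp [hw]
  have hε2 : (ε / 2 : ℝ≥0∞) ≠ 0 := by
    simp only [ne_eq, ENNReal.div_eq_zero_iff, ENNReal.coe_eq_zero, ENNReal.ofNat_ne_top, or_false]
    exact hε.ne'
  obtain ⟨l, hl, hlc⟩ := gnorm_lt_iff.1 (ENNReal.lt_add_right hv hε2)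
  obtain ⟨l', hl', hlc'⟩ := gnorm_lt_iff.1 (ENNReal.lt_add_right hw hε2)
  refine (gnorm_le (l ++ l') (by rw [value_append, hl, hl'])).trans ?_
  rw [cost_append]
  refine (add_le_add hlc.le hlc'.le).trans (le_of_eq ?_)
  rw [add_add_add_comm, ENNReal.add_halves]

omit [MetricSpace X] in
lemma value_smul (r : ℝ) (l : List (ℝ × X × X)) :
    value (l.map fun t => (r * t.1, t.2)) = r • value l := by
  induction l with
  | nil => simp [value]
  | cons t l ih =>
    simp only [value, List.map_cons, List.sum_cons, List.map_map] at ih ⊢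
    rw [smul_add, ih, mul_smul]

lemma cost_smul (r : ℝ) (l : List (ℝ × X × X)) :
    cost (l.map fun t => (r * t.1, t.2)) = cost l := by
  simp [cost, Function.comp_def]

lemma gnorm_smul_le (r : ℝ) (v : GSpace X) : gnorm (r • v) ≤ gnorm v := by
  conv_rhs => unfold gnorm
  refine le_iInf₂ fun l hl => ?_
  rw [← cost_smul r l]
  exact gnorm_le _ (by rw [value_smul, hl])

lemma gnorm_neg (v : GSpace X) : gnorm (-v) = gnorm v := by
  refine le_antisymm ?_ ?_
  · simpa using gnorm_smul_le (-1) v
  · simpa using gnorm_smul_le (-1) (-v)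

lemma gnorm_pt_sub (x y : X) : gnorm (pt x - pt y) ≤ edist x y := by
  refine (gnorm_le [((1 : ℝ), x, y)] ?_).trans ?_
  · simp [value]
  · simp [cost]

/-- the sum of the coefficients of `v` in the open ball with centre `x` and radius `r` -/
noncomputable def ballSum (x : X) (r : ℝ) : GSpace X →ₗ[ℝ] ℝ :=
  Finsupp.linearCombination ℝ (fun y : X => if dist x y < r then (1 : ℝ) else 0)

lemma ballSum_pt (x : X) (r : ℝ) (y : X) :
    ballSum x r (pt y) = if dist x y < r then (1 : ℝ) else 0 := by
  unfold ballSum pt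
  rw [Finsupp.linearCombination_single]
  simp

/-- no pair of the list is separated by the sphere of radius `r` around `x`, for some small `r` -/
lemma exists_radius (x : X) (l : List (ℝ × X × X)) {ε : ℝ} (h : cost l < ENNReal.ofReal ε) :
    ∃ r ∈ Ioo 0 ε, ∀ t ∈ l, (dist x t.2.1 < r ↔ dist x t.2.2 < r) := by
  by_contra hcon
  push Not at hcon
  have hcover : ∀ l' : List (ℝ × X × X),
      MeasureTheory.volume {r : ℝ | ∃ t ∈ l', ¬ (dist x t.2.1 < r ↔ dist x t.2.2 < r)} ≤
        cost l' := by
    intro l'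
    induction l' with
    | nil => simp [cost]
    | cons t l' ih =>
      have hsub : {r : ℝ | ∃ t' ∈ t :: l', ¬ (dist x t'.2.1 < r ↔ dist x t'.2.2 < r)} ⊆
          {r : ℝ | ¬ (dist x t.2.1 < r ↔ dist x t.2.2 < r)} ∪
          {r : ℝ | ∃ t' ∈ l', ¬ (dist x t'.2.1 < r ↔ dist x t'.2.2 < r)} := by
        rintro r ⟨t', ht', hr⟩
        rcases List.mem_cons.1 ht' with rfl | ht'
        · exact Or.inl hr
        · exact Or.inr ⟨t', ht', hr⟩
      refine (MeasureTheory.measure_mono hsub).trans ((MeasureTheory.measure_union_le _ _).trans ?_)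
      have h1 : cost (t :: l') = edist t.2.1 t.2.2 + cost l' := by simp [cost]
      rw [h1]
      refine add_le_add ?_ ih
      have hsub2 : {r : ℝ | ¬ (dist x t.2.1 < r ↔ dist x t.2.2 < r)} ⊆
          Icc (min (dist x t.2.1) (dist x t.2.2)) (max (dist x t.2.1) (dist x t.2.2)) := by
        intro r hr
        have hr : ¬ (dist x t.2.1 < r ↔ dist x t.2.2 < r) := hr
        rw [mem_Icc, min_le_iff, le_max_iff]
        by_cases h1 : dist x t.2.1 < r
        · by_cases h2 : dist x t.2.2 < r
          · exact absurd ⟨fun _ => h2, fun _ => h1⟩ hr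
          · exact ⟨Or.inl h1.le, Or.inr (not_lt.1 h2)⟩
        · by_cases h2 : dist x t.2.2 < r
          · exact ⟨Or.inr h2.le, Or.inl (not_lt.1 h1)⟩
          · exact absurd ⟨fun h => absurd h h1, fun h => absurd h h2⟩ hr
      refine (MeasureTheory.measure_mono hsub2).trans ?_
      rw [Real.volume_Icc, edist_dist]
      refine ENNReal.ofReal_le_ofReal ?_
      have h4 := abs_dist_sub_le t.2.1 t.2.2 x
      rw [dist_comm t.2.1 x, dist_comm t.2.2 x] at h4
      rw [max_sub_min_eq_abs, abs_sub_comm]
      exact h4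
  have h2 : Ioo 0 ε ⊆ {r : ℝ | ∃ t ∈ l, ¬ (dist x t.2.1 < r ↔ dist x t.2.2 < r)} := by
    intro r hr
    obtain ⟨t, ht, h⟩ := hcon r hr
    refine ⟨t, ht, fun hiff => ?_⟩
    rcases h with ⟨h1, h2⟩ | ⟨h1, h2⟩
    · exact absurd (hiff.1 h1) (not_lt.2 h2)
    · exact absurd (hiff.2 h2) (not_lt.2 h1)
  have h3 := (MeasureTheory.measure_mono h2).trans (hcover l)
  rw [Real.volume_Ioo, sub_zero] at h3
  exact absurd h (not_lt.2 h3)

lemma value_mem_ker (x : X) (r : ℝ) (l : List (ℝ × X × X))
    (h : ∀ t ∈ l, (dist x t.2.1 < r ↔ dist x t.2.2 < r)) : ballSum x r (value l) = 0 := by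
  induction l with
  | nil => simp [value]
  | cons t l ih =>
    have h1 : value (t :: l) = t.1 • (pt t.2.1 - pt t.2.2) + value l := by simp [value]
    rw [h1, map_add, map_smul, map_sub, ballSum_pt, ballSum_pt,
      ih fun t' ht' => h t' (List.mem_cons_of_mem _ ht')]
    have h2 := h t List.mem_cons_self
    by_cases h3 : dist x t.2.1 < r
    · simp [h3, h2.1 h3]
    · have h4 : ¬ dist x t.2.2 < r := fun h4 => h3 (h2.2 h4)
      simp [h3, h4]

lemma exists_ballSum_eq {v w : GSpace X} {ε : ℝ} (h : gnorm (v - w) < ENNReal.ofReal ε) (x : X) :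
    ∃ r ∈ Ioo 0 ε, ballSum x r v = ballSum x r w := by
  obtain ⟨l, hl, hc⟩ := gnorm_lt_iff.1 h
  obtain ⟨r, hr, hrl⟩ := exists_radius x l hc
  refine ⟨r, hr, ?_⟩
  have := value_mem_ker x r l hrl
  rw [hl, map_sub, sub_eq_zero] at this
  exact this

/-- distinct points of the support of `v` have distance at least `δ` -/
def Sep (δ : ℝ) (v : GSpace X) : Prop :=
  ∀ x ∈ v.support, ∀ y ∈ v.support, x ≠ y → δ ≤ dist x y

lemma ballSum_apply (x : X) (r : ℝ) (v : GSpace X) :
    ballSum x r v = ∑ y ∈ v.support, if dist x y < r then v y else 0 := by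
  unfold ballSum
  rw [Finsupp.linearCombination_apply, Finsupp.sum]
  refine Finset.sum_congr rfl fun y _ => ?_
  split_ifs <;> simp

/-- the ball sum around a point close to exactly one point of the support -/
lemma ballSum_eq_of_sep {δ r : ℝ} {v : GSpace X} (hv : Sep δ v) (x y : X)
    (hy : y ∈ v.support) (hxy : dist x y < r) (hr : dist x y + r ≤ δ) :
    ballSum x r v = v y := by
  rw [ballSum_apply, Finset.sum_eq_single y]
  · simp [hxy]
  · intro z hz hzy
    rw [if_neg]
    intro hxz
    have h1 := hv y hy z hz (Ne.symm hzy)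
    have h2 := dist_triangle_left y z x
    linarith
  · intro h; exact absurd hy h

lemma exists_of_ballSum_ne_zero {x : X} {r : ℝ} {w : GSpace X} (h : ballSum x r w ≠ 0) :
    ∃ y ∈ w.support, dist x y < r := by
  rw [ballSum_apply] at h
  obtain ⟨y, hy, hne⟩ := Finset.exists_ne_zero_of_sum_ne_zero h
  refine ⟨y, hy, ?_⟩
  by_contra hcon
  simp [hcon] at hne

/-- points of the support have a point of the support of a nearby vector close to them -/
lemma exists_near {δ ε : ℝ} {v w : GSpace X} (hv : Sep δ v) (hε : ε ≤ δ)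
    (h : gnorm (v - w) < ENNReal.ofReal ε) {x : X} (hx : x ∈ v.support) :
    ∃ y ∈ w.support, dist x y < ε := by
  obtain ⟨r, hr, he⟩ := exists_ballSum_eq h x
  have h1 : ballSum x r v = v x :=
    ballSum_eq_of_sep hv x x hx (by simpa using hr.1) (by simp; linarith [hr.2])
  have h2 : ballSum x r w ≠ 0 := by
    rw [← he, h1]
    exact Finsupp.mem_support_iff.1 hx
  obtain ⟨y, hy, hxy⟩ := exists_of_ballSum_ne_zero h2
  exact ⟨y, hy, hxy.trans hr.2⟩

/-- matching of the supports, with equal coefficients -/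
lemma exists_match {δ ε : ℝ} {v w : GSpace X} (hv : Sep δ v) (hw : Sep δ w) (hε : 2 * ε ≤ δ)
    (h : gnorm (v - w) < ENNReal.ofReal ε) {x : X} (hx : x ∈ v.support) :
    ∃ y ∈ w.support, dist x y < ε ∧ w y = v x := by
  obtain ⟨r, hr, he⟩ := exists_ballSum_eq h x
  have h1 : ballSum x r v = v x :=
    ballSum_eq_of_sep hv x x hx (by simpa using hr.1) (by simp; linarith [hr.1, hr.2])
  have h2 : ballSum x r w ≠ 0 := by
    rw [← he, h1]
    exact Finsupp.mem_support_iff.1 hx
  obtain ⟨y, hy, hxy⟩ := exists_of_ballSum_ne_zero h2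
  refine ⟨y, hy, hxy.trans hr.2, ?_⟩
  rw [← h1, he]
  exact (ballSum_eq_of_sep hw x y hy hxy (by linarith [hr.2])).symm

lemma exists_sep (v : GSpace X) : ∃ δ > 0, Sep δ v := by
  classical
  by_cases hne : v.support.offDiag.Nonempty
  · obtain ⟨p, hp, hmin⟩ := Finset.exists_min_image v.support.offDiag
      (fun p => dist p.1 p.2) hne
    refine ⟨dist p.1 p.2, dist_pos.2 (Finset.mem_offDiag.1 hp).2.2, fun x hx y hy hxy => ?_⟩
    exact hmin (x, y) (Finset.mem_offDiag.2 ⟨hx, hy, hxy⟩)
  · refine ⟨1, one_pos, fun x hx y hy hxy => ?_⟩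
    exact absurd ⟨(x, y), Finset.mem_offDiag.2 ⟨hx, hy, hxy⟩⟩ hne

lemma sep_mono {δ δ' : ℝ} (h : δ' ≤ δ) {v : GSpace X} (hv : Sep δ v) : Sep δ' v :=
  fun x hx y hy hxy => h.trans (hv x hx y hy hxy)

lemma eq_zero_of_gnorm {v : GSpace X} (h : gnorm v = 0) : v = 0 := by
  by_contra hne
  obtain ⟨δ, hδ, hs⟩ := exists_sep v
  obtain ⟨x, hx⟩ := Finsupp.support_nonempty_iff.2 hne
  obtain ⟨y, hy, -⟩ := exists_near (w := 0) hs le_rfl (by
    rw [sub_zero, h]; simpa using hδ) hx
  simp at hy

/-- the Graev-type extended metric -/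
noncomputable instance instEMetric : EMetricSpace (GSpace X) where
  edist v w := gnorm (v - w)
  edist_self v := by rw [sub_self]; exact gnorm_zero
  edist_comm v w := by rw [← gnorm_neg, neg_sub]
  edist_triangle u v w := by
    have := gnorm_add (u - v) (v - w)
    rwa [sub_add_sub_cancel] at this
  eq_of_edist_eq_zero h := sub_eq_zero.1 (eq_zero_of_gnorm h)

lemma edist_eq (v w : GSpace X) : edist v w = gnorm (v - w) := rfl

lemma topLinear_GSpace : IsTopLinear (GSpace X) where
  t2 := inferInstance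
  add := by
    have : LipschitzWith 2 (fun p : GSpace X × GSpace X => p.1 + p.2) := by
      intro p q
      rw [edist_eq, add_sub_add_comm]
      refine (gnorm_add _ _).trans ?_
      rw [← edist_eq, ← edist_eq]
      have h1 : edist p.1 q.1 ≤ edist p q := le_max_left _ _
      have h2 : edist p.2 q.2 ≤ edist p q := le_max_right _ _
      calc edist p.1 q.1 + edist p.2 q.2 ≤ edist p q + edist p q := add_le_add h1 h2
        _ = (2 : NNReal) * edist p q := by
            rw [ENNReal.coe_ofNat, two_mul]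
    exact this.continuous
  smul r := by
    have : LipschitzWith 1 (fun v : GSpace X => r • v) := by
      intro v w
      rw [edist_eq, ← smul_sub]
      simpa [edist_eq] using gnorm_smul_le r (v - w)
    exact this.continuous

lemma continuous_pt : Continuous (pt : X → GSpace X) := by
  have : LipschitzWith 1 (pt : X → GSpace X) := by
    intro x y
    rw [edist_eq]
    simpa using gnorm_pt_sub x y
  exact this.continuous

/-- the vectors with `δ`-separated support form a closed set -/
lemma isClosed_sep (δ : ℝ) : IsClosed {v : GSpace X | Sep δ v} := by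
  rw [← isOpen_compl_iff, EMetric.isOpen_iff]
  intro v hv
  have hv : ¬ Sep δ v := hv
  unfold Sep at hv
  push Not at hv
  obtain ⟨x, hx, y, hy, hxy, hd⟩ := hv
  obtain ⟨η, hη, hs⟩ := exists_sep v
  obtain ⟨ε, hε, h1, h2⟩ : ∃ ε > 0, 2 * ε ≤ η ∧ dist x y + 2 * ε ≤ δ := by
    refine ⟨min (η / 2) ((δ - dist x y) / 2), by
      refine lt_min (by linarith) (by linarith), ?_, ?_⟩
    · have := min_le_left (η / 2) ((δ - dist x y) / 2); linarith
    · have := min_le_right (η / 2) ((δ - dist x y) / 2); linarith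
  refine ⟨ENNReal.ofReal ε, by simpa using hε, fun w hw hws => ?_⟩
  have hws : Sep δ w := hws
  rw [Metric.mem_eball, edist_comm, edist_eq] at hw
  obtain ⟨x', hx', hxx'⟩ := exists_near hs (by linarith) hw hx
  obtain ⟨y', hy', hyy'⟩ := exists_near hs (by linarith) hw hy
  have hη2 := hs x hx y hy hxy
  have hne : x' ≠ y' := by
    rintro rfl
    have := dist_triangle_right x y x'
    linarith
  have h3 := hws x' hx' y' hy' hne
  have h4 : dist x' y' ≤ dist x' x + dist x y + dist y y' := dist_triangle4 _ _ _ _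
  rw [dist_comm x' x] at h4
  linarith

end Graev

/-! ### The free topological linear space exists -/

section Existence

lemma isometry_pt {X : Type u} [MetricSpace X] : Isometry (pt : X → GSpace X) := by
  intro x y
  rw [edist_eq]
  refine le_antisymm (gnorm_pt_sub x y) ?_
  by_contra hcon
  push Not at hcon
  rw [edist_dist] at hcon
  have hs : Sep (dist x y) (pt x) := by
    intro a ha b hb hab
    have h1 : a = x := by simpa [pt, Finsupp.single_apply, eq_comm] using ha
    have h2 : b = x := by simpa [pt, Finsupp.single_apply, eq_comm] using hb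
    exact absurd (h1.trans h2.symm) hab
  obtain ⟨z, hz, hd⟩ := exists_near hs le_rfl hcon (x := x) (by simp [pt])
  have h1 : z = y := by simpa [pt, Finsupp.single_apply, eq_comm] using hz
  rw [h1] at hd
  exact lt_irrefl _ hd

lemma continuousAdd_induced_aux {V E : Type u} [AddCommGroup V] [Module ℝ V] [AddCommGroup E]
    [Module ℝ E] [t : TopologicalSpace E] (g : V →ₗ[ℝ] E)
    (hE : Continuous fun p : E × E => p.1 + p.2) :
    @ContinuousAdd V (TopologicalSpace.induced g t) _ := by
  let _ : TopologicalSpace V := TopologicalSpace.induced g t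
  have hg : Continuous g := continuous_induced_dom
  refine ⟨?_⟩
  rw [continuous_induced_rng]
  have : (g ∘ fun p : V × V => p.1 + p.2) = (fun p : E × E => p.1 + p.2) ∘ Prod.map g g := by
    funext v; simp
  rw [this]
  exact hE.comp (hg.prodMap hg)

lemma continuous_smul_induced_aux {V E : Type u} [AddCommGroup V] [Module ℝ V] [AddCommGroup E]
    [Module ℝ E] [t : TopologicalSpace E] (g : V →ₗ[ℝ] E)
    (hE : ∀ r : ℝ, Continuous fun w : E => r • w) (r : ℝ) :
    @Continuous V V (TopologicalSpace.induced g t) (TopologicalSpace.induced g t)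
      fun v : V => r • v := by
  let _ : TopologicalSpace V := TopologicalSpace.induced g t
  have hg : Continuous g := continuous_induced_dom
  rw [continuous_induced_rng]
  have : (g ∘ fun v : V => r • v) = (fun w : E => r • w) ∘ g := by
    funext v; simp
  rw [this]
  exact (hE r).comp hg

/-- the underlying vector space of the free topological linear space on `X` -/
def FreeTL (X : Type u) : Type u := X →₀ ℝ

noncomputable instance (X : Type u) : AddCommGroup (FreeTL X) :=
  inferInstanceAs (AddCommGroup (X →₀ ℝ))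
noncomputable instance (X : Type u) : Module ℝ (FreeTL X) := inferInstanceAs (Module ℝ (X →₀ ℝ))

/-- the basis of `FreeTL X` -/
noncomputable def freeBasis (X : Type u) : Module.Basis X ℝ (FreeTL X) :=
  (Finsupp.basisSingleOne : Module.Basis X ℝ (X →₀ ℝ))

/-- the topologies on `FreeTL X` for which addition, multiplication by scalars and the inclusion of
the basis `X` are continuous -/
def goodTop (X : Type u) [TopologicalSpace X] : Set (TopologicalSpace (FreeTL X)) :=
  {t | @ContinuousAdd (FreeTL X) t _ ∧ (∀ r : ℝ, @Continuous _ _ t t fun v : FreeTL X => r • v) ∧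
    @Continuous _ _ _ t (freeBasis X)}

instance (X : Type u) [TopologicalSpace X] : TopologicalSpace (FreeTL X) := sInf (goodTop X)

/-- the free topological linear space over `ℝ_d` on a metrizable space exists -/
theorem exists_free (X : Type u) [TopologicalSpace X] [TopologicalSpace.MetrizableSpace X] :
    IsFreeTopLinear X (FreeTL X) (freeBasis X) := by
  let _ := TopologicalSpace.metrizableSpaceMetric X
  have hadd : ContinuousAdd (FreeTL X) := continuousAdd_sInf fun t ht => ht.1
  have hsmul : ∀ r : ℝ, Continuous fun v : FreeTL X => r • v := fun r =>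
    continuous_sInf_rng.2 fun t ht => continuous_sInf_dom ht (ht.2.1 r)
  have hi : Continuous (freeBasis X) := continuous_sInf_rng.2 fun t ht => ht.2.2
  -- the identity map to the metric space `GSpace X`
  let e : FreeTL X →ₗ[ℝ] GSpace X := (LinearMap.id : (X →₀ ℝ) →ₗ[ℝ] (X →₀ ℝ))
  have hie : ∀ x, e (freeBasis X x) = pt x := by
    intro x
    have : (Finsupp.basisSingleOne : Module.Basis X ℝ (X →₀ ℝ)) x = Finsupp.single x 1 := by simp
    exact this
  -- a linear map to a topological linear space that is continuous on `X` is continuous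
  have hlift : ∀ (E : Type u) [AddCommGroup E] [Module ℝ E] [TopologicalSpace E],
      IsTopLinear E → ∀ g : FreeTL X →ₗ[ℝ] E, Continuous (fun x => g (freeBasis X x)) →
        Continuous g := by
    intro E _ _ _ hE g hg
    have hEadd : ContinuousAdd E := ⟨hE.add⟩
    rw [continuous_iff_le_induced]
    refine sInf_le ⟨?_, ?_, ?_⟩
    · exact continuousAdd_induced_aux g hE.add
    · exact continuous_smul_induced_aux g hE.smul
    · rw [continuous_induced_rng]
      exact hg
  have hec : Continuous e := by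
    refine hlift (GSpace X) topLinear_GSpace e ?_
    simp only [hie]
    exact continuous_pt
  have hinj : Function.Injective e := fun a b h => h
  refine ⟨⟨T2Space.of_injective_continuous hinj hec, hadd.continuous_add, hsmul⟩, ?_,
    (freeBasis X).linearIndependent, (freeBasis X).span_eq.ge, ?_⟩
  · refine IsEmbedding.of_comp hi hec ?_
    have : (e ∘ freeBasis X) = (pt : X → GSpace X) := funext hie
    rw [this]
    exact isometry_pt.isEmbedding
  · intro E _ _ _ hE f hf
    refine ⟨(freeBasis X).constr ℝ f, ⟨?_, fun x => (freeBasis X).constr_basis ℝ f x⟩, ?_⟩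
    · refine hlift E hE _ ?_
      simp only [(freeBasis X).constr_basis]
      exact hf
    · rintro g ⟨-, hg⟩
      exact ((freeBasis X).ext fun x => by rw [hg, (freeBasis X).constr_basis])

end Existence

/-- every free topological linear space over `ℝ_d` on the metrizable space `X` is paracompact -/
theorem paracompact_free (X : Type u) [TopologicalSpace X] [TopologicalSpace.MetrizableSpace X]
    (L : Type u) [AddCommGroup L] [Module ℝ L] [TopologicalSpace L] (i : X → L)
    (h : IsFreeTopLinear X L i) : T2Space L ∧ ParacompactSpace L := by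
  classical
  refine ⟨h.topLinear.t2, ?_⟩
  let _ := TopologicalSpace.metrizableSpaceMetric X
  have : ContinuousAdd L := ⟨h.topLinear.add⟩
  have : ContinuousNeg L := ⟨by simpa using h.topLinear.smul (-1)⟩
  have : IsTopologicalAddGroup L := {}
  let b : Module.Basis X ℝ L := Module.Basis.mk h.linearIndependent h.span
  have hb : ∀ x, b x = i x := fun x => by simp [b]
  obtain ⟨φ, ⟨hφc, hφ⟩, -⟩ := h.lift (GSpace X) topLinear_GSpace pt continuous_pt
  have hφb : φ = b.repr.toLinearMap := by
    refine b.ext fun x => ?_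
    rw [hb, hφ, ← hb]
    simp [pt]
  have hinj : Function.Injective φ := by rw [hφb]; exact b.repr.injective
  have hsurj : Function.Surjective φ := by rw [hφb]; exact b.repr.surjective
  refine paracompact_of_map φ hφc hsurj (fun n => {v | Sep (1 / ((n : ℝ) + 1)) v})
    (fun n => isClosed_sep _) ?_ ?_
  · intro z
    obtain ⟨δ, hδ, hs⟩ := exists_sep (φ z)
    obtain ⟨n, hn⟩ := exists_nat_one_div_lt hδ
    exact ⟨n, sep_mono hn.le hs⟩
  · intro n z hz O hO
    set δ : ℝ := 1 / ((n : ℝ) + 1) with hδ
    have hδpos : 0 < δ := by positivity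
    have hz : Sep δ (φ z) := hz
    set v := φ z with hv
    -- the map that moves the points of the support
    let Ψ : (v.support → X) → L := fun f => ∑ s : v.support, v s • i (f s)
    have hΨc : Continuous Ψ := by
      refine continuous_finsetSum _ fun s _ => ?_
      exact (h.topLinear.smul _).comp (h.embedding.continuous.comp (continuous_apply s))
    have hφΨ : ∀ f : v.support → X, φ (Ψ f) = ∑ s : v.support, v s • pt (f s) := by
      intro f
      simp only [Ψ, map_sum, map_smul, hφ]
    have hsum : ∀ w : GSpace X, ∑ t ∈ w.support, w t • pt t = w := by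
      intro w
      conv_rhs => rw [← Finsupp.sum_single w]
      refine Finset.sum_congr rfl fun t _ => ?_
      simp [pt]
    have hΨz : Ψ (fun s => s.1) = z := by
      apply hinj
      rw [hφΨ, ← hv]
      conv_rhs => rw [← hsum v]
      exact Finset.sum_coe_sort v.support (fun t => v t • pt t)
    have hO' : Ψ ⁻¹' O ∈ 𝓝 (fun s : v.support => s.1) :=
      hΨc.continuousAt.preimage_mem_nhds (by rw [hΨz]; exact hO)
    obtain ⟨ε0, hε0, hball⟩ := Metric.mem_nhds_iff.1 hO'
    set ε := min ε0 (δ / 2) with hε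
    have hεpos : 0 < ε := lt_min hε0 (by linarith)
    have hε2 : 2 * ε ≤ δ := by have := min_le_right ε0 (δ / 2); linarith
    refine ⟨Metric.eball v (ENNReal.ofReal ε), Metric.eball_mem_nhds _ (by simpa using hεpos), ?_⟩
    rintro z' ⟨hz1, hz2⟩
    have hz2 : Sep δ (φ z') := hz2
    rw [Metric.mem_eball, edist_comm, edist_eq] at hz1
    have hz1' : gnorm (φ z' - v) < ENNReal.ofReal ε := by
      rw [← gnorm_neg, neg_sub]; exact hz1
    choose f hf1 hf2 hf3 using fun s : v.support => exists_match hz hz2 hε2 hz1 s.2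
    have hfz : Ψ f = z' := by
      apply hinj
      rw [hφΨ]
      conv_rhs => rw [← hsum (φ z')]
      refine Finset.sum_bij (fun s _ => f s) (fun s _ => hf1 s) ?_ ?_ ?_
      · intro s _ s' _ he
        by_contra hne
        have h1 := hz s s.2 s' s'.2 (fun hh => hne (Subtype.ext hh))
        have h2 := hf2 s
        have h3 := hf2 s'
        have he : f s = f s' := he
        rw [← he] at h3
        have := dist_triangle_right (s : X) s' (f s)
        linarith
      · intro t ht
        obtain ⟨x, hx, hxt, -⟩ := exists_match hz2 hz hε2 hz1' ht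
        refine ⟨⟨x, hx⟩, Finset.mem_univ _, ?_⟩
        by_contra hne
        have h1 := hz2 _ (hf1 ⟨x, hx⟩) t ht hne
        have h2 := hf2 ⟨x, hx⟩
        have h4 := dist_triangle_left (f ⟨x, hx⟩) t x
        simp only at h2
        rw [dist_comm t x] at hxt
        linarith
      · intro s _
        rw [hf3]
    rw [← hfz]
    apply hball
    rw [Metric.mem_ball, dist_pi_lt_iff hε0]
    intro s
    rw [dist_comm]
    exact (hf2 s).trans_le (min_le_left _ _)

/-- **Q1.** For every metrizable space `X`, the free topological linear space over `ℝ_d` on `X`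
exists, and every space with its defining properties is Hausdorff and paracompact. -/
theorem result (X : Type u) [TopologicalSpace X] [TopologicalSpace.MetrizableSpace X] :
    (∃ (L : Type u) (_ : AddCommGroup L) (_ : Module ℝ L) (_ : TopologicalSpace L) (i : X → L),
      IsFreeTopLinear X L i) ∧
    ∀ (L : Type u) [AddCommGroup L] [Module ℝ L] [TopologicalSpace L] (i : X → L),
      IsFreeTopLinear X L i → T2Space L ∧ ParacompactSpace L :=
  ⟨⟨FreeTL X, inferInstance, inferInstance, inferInstance, freeBasis X, exists_free X⟩,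
    fun L _ _ _ i h => paracompact_free X L i h⟩

end Pool.Agent.Results.MP_f94ac9_gt.Paracompact
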